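import Pool.Agent.TH818.AP.Mv2
import Pool.Agent.TH818.AP.Psi

/-!
# `π`, `e^q`, the digamma function and iterated integrals at almost all rational points
-/

set_option autoImplicit false

namespace Pool.Agent.Results.MP_725b61_nt.AlmostAllRationalPoints

/-- The functions `G w` (`w` a word in the letters `1, …, m`, written as a list) are iterated integrals of the forms
`dz / (z - s_i)` on the interval `(u, v)`: the empty word gives `1`, and `G (i :: w)` is a primitive of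
`G w / (z - s_i)`. -/
def IsIteratedIntegral {m : ℕ} (s : Fin m → ℝ) (u v : ℝ) (G : List (Fin m) → ℝ → ℝ) : Prop :=
  (∀ z : ℝ, u < z → z < v → G [] z = 1) ∧
    ∀ (i : Fin m) (w : List (Fin m)) (z : ℝ), u < z → z < v → HasDerivAt (G (i :: w)) (G w z / (z - s i)) z

/-- Words of length at most `k` in `m` letters. -/
abbrev Word (m k : ℕ) := Σ l : Fin (k + 1), (Fin (l : ℕ) → Fin m)

/-- The digamma function `ψ = Γ' / Γ`; `ψ(1) = -γ`. -/
noncomputable def digamma (t : ℝ) : ℝ := deriv Real.Gamma t / Real.Gamma t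

/-- For one variable `t`: `(e^(α t))^i ψ(t)^i' G_w(t)`, where `x = ((i, i'), w)`, `i, i' ≤ d`, `w` of length at most
`k`. -/
noncomputable def term {m k d : ℕ} (α : ℝ) (G : List (Fin m) → ℝ → ℝ)
    (x : (Fin (d + 1) × Fin (d + 1)) × Word m k) (t : ℝ) : ℝ :=
  Real.exp (α * t) ^ (x.1.1 : ℕ) * digamma t ^ (x.1.2 : ℕ) * G (List.ofFn x.2.2) t

/-- The `n`-tuples `q` of rational numbers, `q_j` in `[a_j, b_j]`, with denominators at most `T` such that there are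
integers `c x i`, not all zero, of absolute value at most `T ^ A`, with `|∑ c x i π^i ∏ term_(x_j)(q_j)| ≤ T ^ (-B)`; here
`0 ≤ i ≤ d` and `x = (x_1, …, x_n)`. -/
def Exceptional {m n : ℕ} (k d : ℕ) (α : Fin n → ℝ) (G : Fin n → List (Fin m) → ℝ → ℝ) (a b : Fin n → ℝ) (A B T : ℝ) :
    Set (Fin n → ℚ) :=
  {q | (∀ j, a j ≤ q j ∧ q j ≤ b j ∧ ((q j).den : ℝ) ≤ T) ∧
    ∃ c : (Fin n → (Fin (d + 1) × Fin (d + 1)) × Word m k) → Fin (d + 1) → ℤ, c ≠ 0 ∧
      (∀ x i, |(c x i : ℝ)| ≤ T ^ A) ∧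
      |∑ x, ∑ i, (c x i : ℝ) * (Real.pi ^ (i : ℕ) * ∏ j, term (α j) (G j) (x j) (q j))| ≤ T ^ (-B)}

/-- Let `s_1, …, s_m` be distinct real numbers, let `[a_j, b_j] ⊂ (u_j, v_j) ⊂ (0, ∞)` be intervals, `s_i ∉ (u_j, v_j)`, let
`G_j` be iterated integrals of the `dz / (z - s_i)` on `(u_j, v_j)` and `α_j > 0` real, `1 ≤ j ≤ n`. Let `k`, `d`,
`A ≥ 0` be given, let `M = ((d + 1)^2 (1 + m + ⋯ + m^k))^n (d + 1)` and `β > 2 - 2 / (M + 1)`. There are `B` and `C` such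
that for all `T ≥ 1` the number of exceptional `n`-tuples is at most `C T^(2(n - 1) + β)`. -/
theorem result {m n : ℕ} (k d : ℕ) (hn : 1 ≤ n) (s : Fin m → ℝ) (hs : Function.Injective s) (u v a b : Fin n → ℝ)
    (hu0 : ∀ j, 0 ≤ u j) (hu : ∀ j, u j < a j) (hab : ∀ j, a j < b j) (hv : ∀ j, b j < v j)
    (hpole : ∀ j i, s i ≤ u j ∨ v j ≤ s i) (G : Fin n → List (Fin m) → ℝ → ℝ)
    (hG : ∀ j, IsIteratedIntegral s (u j) (v j) (G j)) (α : Fin n → ℝ) (hα : ∀ j, 0 < α j) (A β : ℝ) (hA : 0 ≤ A)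
    (hβ : 2 - 2 / ((((d : ℝ) + 1) ^ 2 * ∑ l ∈ Finset.range (k + 1), (m : ℝ) ^ l) ^ n * ((d : ℝ) + 1) + 1) < β) :
    ∃ B C : ℝ, ∀ T : ℝ, 1 ≤ T → (Exceptional k d α G a b A B T).Finite ∧
      ((Exceptional k d α G a b A B T).ncard : ℝ) ≤ C * T ^ (2 * ((n : ℝ) - 1) + β) := by
  classical
  have hs' : ∀ j i, s i ∉ Set.Ioo (u j) (v j) := by
    rintro j i ⟨h1, h2⟩
    rcases hpole j i with h | h <;> linarith
  have hG' : ∀ j, TH818.AP.Hyp.IsSol s (u j) (v j) (G j) := fun j =>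
    ⟨fun z hz => (hG j).1 z hz.1 hz.2, fun i w z hz => (hG j).2 i w z hz.1 hz.2⟩
  have hcard : Fintype.card (Word m k) = ∑ l ∈ Finset.range (k + 1), m ^ l := TH818.AP.Hyp.card_Word m k
  have hpos : 0 < Fintype.card ((Fin (d + 1) × Fin (d + 1)) × Word m k) := by
    rw [Fintype.card_prod, Fintype.card_prod, hcard, Finset.sum_range_succ']
    simp
  have hβ' : 2 * (((Fintype.card ((Fin (d + 1) × Fin (d + 1)) × Word m k)) ^ n * Fintype.card (Fin (d + 1)) : ℕ) : ℝ) /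
      ((((Fintype.card ((Fin (d + 1) × Fin (d + 1)) × Word m k)) ^ n * Fintype.card (Fin (d + 1)) : ℕ) : ℝ) + 1) < β := by
    rw [Fintype.card_prod, Fintype.card_prod, hcard, Fintype.card_fin]
    refine lt_of_le_of_lt (le_of_eq ?_) hβ
    push_cast
    have h0 : (0 : ℝ) ≤ ∑ l ∈ Finset.range (k + 1), (m : ℝ) ^ l := Finset.sum_nonneg fun l _ => by positivity
    have h1 : (((d : ℝ) + 1) ^ 2 * ∑ l ∈ Finset.range (k + 1), (m : ℝ) ^ l) ^ n * ((d : ℝ) + 1) + 1 ≠ 0 := by positivity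
    rw [← sq ((d : ℝ) + 1)]
    field_simp
    ring
  obtain ⟨B, C, h⟩ := TH818.AP.multi_gen hpos _ (TH818.AP.goodConst_pi d) n hn
    (fun j (x : (Fin (d + 1) × Fin (d + 1)) × Word m k) (t : ℝ) => term (α j) (G j) x t) a b hab
    (fun j x z hz => by
      have hz0 : 0 < z := lt_of_le_of_lt (hu0 j) ((hu j).trans_le hz.1)
      have h1 : AnalyticAt ℝ (fun t : ℝ => Real.exp (α j * t)) z := (analyticAt_const.mul analyticAt_id).rexp
      have h2 : AnalyticAt ℝ digamma z := TH818.AP.Hyp.psi_an hz0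
      exact ((h1.pow _).mul (h2.pow _)).mul ((hG' j).an (hs' j) _ z ⟨(hu j).trans_le hz.1, hz.2.trans_lt (hv j)⟩))
    (fun j => TH818.AP.Hyp.all_indep s hs (hu0 j) (hu j) (hab j) (hv j) (hG' j) (hs' j) k d (hα j)) A β hA hβ'
  refine ⟨B, C, fun T hT => ?_⟩
  obtain ⟨hfin, hle⟩ := h T hT
  have hsub : Exceptional k d α G a b A B T ⊆ TH818.AP.ExcM
      (fun j (x : (Fin (d + 1) × Fin (d + 1)) × Word m k) (t : ℝ) => term (α j) (G j) x t)
      (fun e : Fin (d + 1) => Real.pi ^ (e : ℕ)) a b A B T := by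
    rintro q ⟨hq, c, hc0, hc, hcs⟩
    refine ⟨fun j => ⟨⟨(hq j).1, (hq j).2.1⟩, (hq j).2.2⟩, fun e => c e.1 e.2, ?_, fun e => hc _ _, ?_⟩
    · intro h0
      apply hc0
      funext w i
      exact congrFun h0 (w, i)
    · refine le_trans (le_of_eq ?_) hcs
      congr 1
      rw [Fintype.sum_prod_type]
      refine Finset.sum_congr rfl fun w _ => Finset.sum_congr rfl fun i _ => ?_
      simp only [TH818.AP.mono]
      ring
  refine ⟨hfin.subset hsub, le_trans ?_ hle⟩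
  exact_mod_cast Set.ncard_le_ncard hsub hfin

end Pool.Agent.Results.MP_725b61_nt.AlmostAllRationalPoints
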