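import Pool.Agent.TH379.PER.Three

set_option autoImplicit false

/-!
# Polynomials in `e`, `1/π`, Euler's constant and linear forms in periods of one variable

`Forms γ` is the space of all linear combinations, with algebraic coefficients, of the integrals
of rational functions of one variable with algebraic coefficients over compact intervals with
algebraic end points, of all logarithms of algebraic numbers, and of finitely many arbitrary
complex numbers `γ 0, ..., γ (g - 1)`.  `boxV t D` is the space of the values at `t` of the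
polynomials with algebraic coefficients of degree less than `D` in each variable.
-/

namespace Pool.Agent.Results.MP_725b61_nt.MonomialsInThreeNumbers

open Pool.Agent.TH379.PER
open Pool.Agent.W254.HP (boxV)

/-- (1) arbitrary numbers, (2) the three numbers of the problem, (3) powers of `1/π` -/
theorem result (g : ℕ) (γ : Fin g → ℂ) :
    (∀ (n : ℕ) (t : Fin n → ℂ) (D : ℕ),
      (Module.finrank (algebraicClosure ℚ ℂ) ↥(boxV t D ⊓ Forms γ) : ℝ) ≤
        2 ^ (n + 1) * Real.sqrt (Module.finrank (algebraicClosure ℚ ℂ) (boxV t D)) + g) ∧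
    (∀ D : ℕ,
      D ≤ Module.finrank (algebraicClosure ℚ ℂ)
        (boxV ![Complex.exp 1, 1 / (Real.pi : ℂ), (Real.eulerMascheroniConstant : ℂ)] D) ∧
      (Module.finrank (algebraicClosure ℚ ℂ)
        ↥(boxV ![Complex.exp 1, 1 / (Real.pi : ℂ), (Real.eulerMascheroniConstant : ℂ)] D ⊓
          Forms γ) : ℝ) ≤
        16 * Real.sqrt (Module.finrank (algebraicClosure ℚ ℂ)
          (boxV ![Complex.exp 1, 1 / (Real.pi : ℂ), (Real.eulerMascheroniConstant : ℂ)] D)) + g) ∧
    (∀ t : ℂ, Transcendental ℚ t → ∀ N : ℕ,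
      (Set.ncard {n : ℕ | n ≤ N ∧ t ^ n ∈ Forms γ} : ℝ) ≤ 2 * Real.sqrt N + 1 + g) ∧
    (∀ N : ℕ, (Set.ncard {n : ℕ | n ≤ N ∧ (1 / (Real.pi : ℂ)) ^ n ∈ Forms γ} : ℝ) ≤
      2 * Real.sqrt N + 1 + g) := by
  have h3 : ∀ t : ℂ, Transcendental ℚ t → ∀ N : ℕ,
      (Set.ncard {n : ℕ | n ≤ N ∧ t ^ n ∈ Forms γ} : ℝ) ≤ 2 * Real.sqrt N + 1 + g := by
    intro t ht N
    refine opt _ N g (fun d hd => ?_)
    exact (Nat.mul_le_mul_left d (pow_count γ ht N)).trans (pow_ineq γ ht N d hd)
  refine ⟨fun n t D => box_main γ t D, fun D => ⟨?_, ?_⟩, h3, h3 _ ?_⟩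
  · exact le_finrank_boxV _ 0 Pool.Agent.H340R2.LW.transcendental_exp_one_complex D
  · have h := box_main γ
      ![Complex.exp 1, 1 / (Real.pi : ℂ), (Real.eulerMascheroniConstant : ℂ)] D
    norm_num at h ⊢
    exact h
  · intro h
    have h1 := h.inv
    rw [one_div, inv_inv] at h1
    exact Pool.Agent.H340R2.LW.transcendental_pi_complex h1

end Pool.Agent.Results.MP_725b61_nt.MonomialsInThreeNumbers
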